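import Mathlib

/-!
# Even part, algebra in the block ring: definitions

`QB K` is the group algebra of `(Z/2)^(K x N)`; the block `(v, b)` (root `v`, size `2^b`) has the
element `eta (v, b) = v^(2^b) * g_(v,b)`, so `eta^2 = v^(2 * 2^b)`, and
`EE s = Prod_((v,b) in s) (1 + eta (v,b) X^(2^b))` is the reversed deformed polynomial.
-/

set_option autoImplicit false

namespace Pool.Agent.Helper58.SNE

open Polynomial Finset

/-- The block ring. -/
abbrev QB (K : Type) [Field K] : Type := AddMonoidAlgebra K ((K × ℕ) →₀ ZMod 2)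

/-- The element of the block `β = (v, b)`. -/
noncomputable def eta {K : Type} [Field K] (β : K × ℕ) : QB K :=
  AddMonoidAlgebra.single (Finsupp.single β 1) (β.1 ^ (2 ^ β.2))

/-- Its inverse. -/
noncomputable def etaI {K : Type} [Field K] (β : K × ℕ) : QB K :=
  AddMonoidAlgebra.single (Finsupp.single β 1) ((β.1 ^ (2 ^ β.2))⁻¹)

/-- Reversed deformed polynomial of a set of blocks. -/
noncomputable def EE {K : Type} [Field K] (s : Finset (K × ℕ)) : (QB K)[X] :=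
  ∏ β ∈ s, (1 + C (eta β) * X ^ (2 ^ β.2))

/-- The same for the inverse set. -/
noncomputable def EEI {K : Type} [Field K] (s : Finset (K × ℕ)) : (QB K)[X] :=
  ∏ β ∈ s, (1 + C (etaI β) * X ^ (2 ^ β.2))

/-- Plain (undeformed) reversed polynomial. -/
noncomputable def E0 {K : Type} [Field K] (s : Finset (K × ℕ)) : K[X] :=
  ∏ β ∈ s, (1 + C (β.1 ^ (2 ^ β.2)) * X ^ (2 ^ β.2))

/-- The same for the inverse set. -/
noncomputable def E0I {K : Type} [Field K] (s : Finset (K × ℕ)) : K[X] :=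
  ∏ β ∈ s, (1 + C ((β.1 ^ (2 ^ β.2))⁻¹) * X ^ (2 ^ β.2))

/-- Coefficients of `1 / E_f`, `E_f = (E0 BG)^2`. -/
noncomputable def phi {K : Type} [Field K] (BG : Finset (K × ℕ)) (n : ℕ) : K :=
  PowerSeries.coeff n (((E0 BG : K[X]) : PowerSeries K) ^ 2)⁻¹

/-- Coefficients of `1 / E_(1/f)`. -/
noncomputable def phiI {K : Type} [Field K] (BG : Finset (K × ℕ)) (n : ℕ) : K :=
  PowerSeries.coeff n (((E0I BG : K[X]) : PowerSeries K) ^ 2)⁻¹

/-- Coefficient `n` of `EE s / E_f`: for `s = BG` it is `h_n(X)`, for `s = BY` it is `h_n(J)`,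
`J = Y (t - d)^2`. -/
noncomputable def hh {K : Type} [Field K] (BG s : Finset (K × ℕ)) (n : ℕ) : QB K :=
  ∑ i ∈ range (n + 1), algebraMap K (QB K) (phi BG (n - i)) * (EE s).coeff i

/-- The same for the inverse set. -/
noncomputable def hhI {K : Type} [Field K] (BG s : Finset (K × ℕ)) (n : ℕ) : QB K :=
  ∑ i ∈ range (n + 1), algebraMap K (QB K) (phiI BG (n - i)) * (EEI s).coeff i

/-- `Phi e x y = Sum_(i < e) x^(e-1-i) y^i`. -/
def Phi {R : Type*} [CommRing R] (e : ℕ) (x y : R) : R := ∑ i ∈ range e, x ^ (e - 1 - i) * y ^ i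

/-- ALG: the contradiction.  `BG` blocks of `G` (degree `r`), `BY` blocks of `G / (t - d)`,
`w = r - m`. -/
def ST_ALG : Prop := ∀ (K : Type) [Field K] [CharP K 2]
  (BG BY : Finset (K × ℕ)) (d : K) (a : ℕ)
  (_ : ∀ β ∈ BG, β.1 ≠ 0) (_ : (d, a) ∈ BG) (_ : ∀ b < a, (d, b) ∉ BG)
  (_ : ∀ β, β ∈ BY ↔ (β ∈ BG ∧ β ≠ (d, a)) ∨ (β.1 = d ∧ β.2 < a))
  (r w : ℕ) (_ : ∑ β ∈ BG, 2 ^ β.2 = r) (_ : 2 ≤ w) (_ : w + 1 ≤ r)
  -- (R_e), sizes (r-1, r+1)
  (_ : ∀ e, 1 ≤ e → e ≤ w → (∀ i, 1 ≤ i → i < e → hh BG BY (r - 1 + i) = 0) →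
    hh BG BY (r - 1 + e) * Phi e ((EE BY).coeff (r - 1)) (hh BG BY (r - 1)) = 0)
  -- (R'_e), sizes (r, r)
  (_ : ∀ e, 1 ≤ e → e + 1 ≤ w → (∀ i, 1 ≤ i → i < e → hh BG BG (r + i) = 0) →
    hh BG BG (r + e) * Phi e ((EE BG).coeff r) (hh BG BG r) = 0)
  -- mirror of (R_1)
  (_ : hhI BG BY r = 0)
  -- (Z_1), sizes (r+1, r-1)
  (_ : hh BG BY w * (EE BY).coeff (r - w) = 0)
  -- (Z_(w+1)) when h_w(J) = .. = h_(2w-1)(J) = 0 and e_(w-1+x)(1/Y) = 0 for 1 <= x <= w;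
  -- `c` is the inverse of the last coefficient of `EE BY`
  (_ : (∀ n, w ≤ n → n < 2 * w → hh BG BY n = 0) →
    (∀ x, 1 ≤ x → x ≤ w → w + x ≤ r → (EE BY).coeff (r - w - x) = 0) →
    ∀ c, c * (EE BY).coeff (r - 1) = 1 →
    hh BG BY (2 * w) * ∑ i ∈ range (w + 1),
      hh BG BY (w - 1) ^ i * (c * (EE BY).coeff (r - w)) ^ (i + 1) = 0),
  False

end Pool.Agent.Helper58.SNE
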