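import Pool.Agent.Helper58.SNE.AlgDefs

/-!
# Even part, block ring: basic facts
-/

set_option autoImplicit false
set_option linter.unusedSectionVars false

namespace Pool.Agent.Helper58.SNE

open Polynomial Finset

variable {K : Type} [Field K]

/-- Total size. -/
def qs (U : Finset (K × ℕ)) : ℕ := ∑ β ∈ U, 2 ^ β.2

/-- Group element of a set of blocks. -/
noncomputable def gU (U : Finset (K × ℕ)) : (K × ℕ) →₀ ZMod 2 := ∑ β ∈ U, Finsupp.single β 1

/-- Scalar of a set of blocks. -/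
noncomputable def vU (U : Finset (K × ℕ)) : K := ∏ β ∈ U, β.1 ^ (2 ^ β.2)

/-- Scalar of a set of blocks, inverse version. -/
noncomputable def vI (U : Finset (K × ℕ)) : K := ∏ β ∈ U, (β.1 ^ (2 ^ β.2))⁻¹

/-- Monomials. -/
noncomputable def mon (U : Finset (K × ℕ)) (c : K) : QB K := AddMonoidAlgebra.single (gU U) c

lemma gU_apply [DecidableEq (K × ℕ)] (U : Finset (K × ℕ)) (β : K × ℕ) : gU U β = if β ∈ U then 1 else 0 := by
  classical
  unfold gU
  rw [Finsupp.finsetSum_apply]
  simp only [Finsupp.single_apply]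
  rw [Finset.sum_ite_eq']

lemma gU_inj {U V : Finset (K × ℕ)} (h : gU U = gU V) : U = V := by
  classical
  ext β
  have h1 := congrArg (fun f => f β) h
  simp only [gU_apply] at h1
  by_cases h2 : β ∈ U <;> by_cases h3 : β ∈ V <;> simp_all

lemma prod_single (U : Finset (K × ℕ)) (f : K × ℕ → K) :
    ∏ β ∈ U, (AddMonoidAlgebra.single (Finsupp.single β 1) (f β) : QB K)
      = mon U (∏ β ∈ U, f β) := by
  classical
  unfold mon gU
  induction U using Finset.induction_on with
  | empty => simp [AddMonoidAlgebra.one_def]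
  | insert a s ha ih =>
    rw [Finset.prod_insert ha, Finset.prod_insert ha, Finset.sum_insert ha, ih,
      AddMonoidAlgebra.single_mul_single]

lemma qs_empty : qs (∅ : Finset (K × ℕ)) = 0 := rfl

lemma prod_C_X (U : Finset (K × ℕ)) (f : K × ℕ → QB K) :
    ∏ β ∈ U, (C (f β) * X ^ (2 ^ β.2) : (QB K)[X]) = C (∏ β ∈ U, f β) * X ^ (qs U) := by
  rw [Finset.prod_mul_distrib, Finset.prod_pow_eq_pow_sum, ← map_prod]
  rfl

lemma prod_C_X0 (U : Finset (K × ℕ)) (f : K × ℕ → K) :
    ∏ β ∈ U, (C (f β) * X ^ (2 ^ β.2) : K[X]) = C (∏ β ∈ U, f β) * X ^ (qs U) := by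
  rw [Finset.prod_mul_distrib, Finset.prod_pow_eq_pow_sum, ← map_prod]
  rfl

lemma coeff_prod_gen [DecidableEq (K × ℕ)] (s : Finset (K × ℕ)) (f : K × ℕ → K) (j : ℕ) :
    (∏ β ∈ s, (1 + C (AddMonoidAlgebra.single (Finsupp.single β 1) (f β) : QB K)
        * X ^ (2 ^ β.2) : (QB K)[X])).coeff j
      = ∑ U ∈ s.powerset with qs U = j, mon U (∏ β ∈ U, f β) := by
  classical
  rw [Finset.prod_one_add, Polynomial.finsetSum_coeff, Finset.sum_filter]
  apply Finset.sum_congr rfl
  intro U _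
  rw [prod_C_X, prod_single, Polynomial.coeff_C_mul, Polynomial.coeff_X_pow]
  by_cases h : qs U = j
  · rw [if_pos h, if_pos h.symm, mul_one]
  · rw [if_neg h, if_neg (fun h' => h h'.symm), mul_zero]

lemma coeff_EE (s : Finset (K × ℕ)) (j : ℕ) :
    (EE s).coeff j = ∑ U ∈ s.powerset with qs U = j, mon U (vU U) := by
  classical
  exact coeff_prod_gen s _ j

lemma coeff_EEI (s : Finset (K × ℕ)) (j : ℕ) :
    (EEI s).coeff j = ∑ U ∈ s.powerset with qs U = j, mon U (vI U) := by
  classical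
  exact coeff_prod_gen s _ j

lemma coeff_E0 (s : Finset (K × ℕ)) (j : ℕ) :
    (E0 s).coeff j = ∑ U ∈ s.powerset with qs U = j, vU U := by
  classical
  unfold E0
  rw [Finset.prod_one_add, Polynomial.finsetSum_coeff, Finset.sum_filter]
  apply Finset.sum_congr rfl
  intro U _
  rw [prod_C_X0, Polynomial.coeff_C_mul, Polynomial.coeff_X_pow]
  by_cases h : qs U = j
  · rw [if_pos h, if_pos h.symm, mul_one]; rfl
  · rw [if_neg h, if_neg (fun h' => h h'.symm), mul_zero]

lemma coeff_E0I (s : Finset (K × ℕ)) (j : ℕ) :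
    (E0I s).coeff j = ∑ U ∈ s.powerset with qs U = j, vI U := by
  classical
  unfold E0I
  rw [Finset.prod_one_add, Polynomial.finsetSum_coeff, Finset.sum_filter]
  apply Finset.sum_congr rfl
  intro U _
  rw [prod_C_X0, Polynomial.coeff_C_mul, Polynomial.coeff_X_pow]
  by_cases h : qs U = j
  · rw [if_pos h, if_pos h.symm, mul_one]; rfl
  · rw [if_neg h, if_neg (fun h' => h h'.symm), mul_zero]

/-! ## The general linear criterion -/

lemma algMap_mul_mon (c : K) (U : Finset (K × ℕ)) (a : K) :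
    algebraMap K (QB K) c * mon U a = mon U (c * a) := by
  unfold mon
  rw [← Algebra.smul_def, AddMonoidAlgebra.smul_single, smul_eq_mul]

/-- General expansion. -/
lemma sum_expand (ph : ℕ → K) (s : Finset (K × ℕ)) (v : Finset (K × ℕ) → K) (n : ℕ) :
    ∑ i ∈ range (n + 1), algebraMap K (QB K) (ph (n - i))
        * (∑ U ∈ s.powerset with qs U = i, mon U (v U))
      = ∑ U ∈ s.powerset with qs U ≤ n, mon U (ph (n - qs U) * v U) := by
  classical
  have h1 : ∀ i ∈ range (n + 1), algebraMap K (QB K) (ph (n - i))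
        * (∑ U ∈ s.powerset with qs U = i, mon U (v U))
      = ∑ U ∈ s.powerset, if qs U = i then mon U (ph (n - qs U) * v U) else 0 := by
    intro i _
    rw [Finset.mul_sum, Finset.sum_filter]
    apply Finset.sum_congr rfl
    intro U _
    by_cases h : qs U = i
    · rw [if_pos h, if_pos h, algMap_mul_mon, h]
    · rw [if_neg h, if_neg h]
  rw [Finset.sum_congr rfl h1, Finset.sum_comm, Finset.sum_filter]
  apply Finset.sum_congr rfl
  intro U _
  rw [Finset.sum_ite_eq]
  by_cases h : qs U ≤ n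
  · rw [if_pos h, if_pos (Finset.mem_range.2 (by omega))]
  · rw [if_neg h, if_neg (fun h' => h (by have := Finset.mem_range.1 h'; omega))]

lemma coeff_sum_mon (S : Finset (Finset (K × ℕ))) (w : Finset (K × ℕ) → K)
    (V : Finset (K × ℕ)) (hV : V ∈ S) :
    (∑ U ∈ S, mon U (w U)).coeff (gU V) = w V := by
  classical
  rw [AddMonoidAlgebra.coeff_sum, Finsupp.finsetSum_apply]
  rw [Finset.sum_eq_single V]
  · unfold mon
    rw [AddMonoidAlgebra.coeff_single, Finsupp.single_eq_same]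
  · intro U _ hU
    unfold mon
    rw [AddMonoidAlgebra.coeff_single, Finsupp.single_apply, if_neg]
    intro h
    exact hU (gU_inj h)
  · intro h
    exact absurd hV h

lemma lin_crit (ph : ℕ → K) (s : Finset (K × ℕ)) (v : Finset (K × ℕ) → K) (n : ℕ)
    (hv : ∀ U, U ⊆ s → v U ≠ 0) :
    ∑ i ∈ range (n + 1), algebraMap K (QB K) (ph (n - i))
        * (∑ U ∈ s.powerset with qs U = i, mon U (v U)) = 0
      ↔ ∀ U, U ⊆ s → qs U ≤ n → ph (n - qs U) = 0 := by
  classical
  rw [sum_expand]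
  constructor
  · intro h U hU hq
    have h1 := coeff_sum_mon (s.powerset.filter (fun U => qs U ≤ n))
      (fun U => ph (n - qs U) * v U) U (Finset.mem_filter.2 ⟨Finset.mem_powerset.2 hU, hq⟩)
    rw [h] at h1
    have h2 : ph (n - qs U) * v U = 0 := by
      rw [← h1]; rfl
    rcases mul_eq_zero.1 h2 with h3 | h3
    · exact h3
    · exact absurd h3 (hv U hU)
  · intro h
    apply Finset.sum_eq_zero
    intro U hU
    rw [Finset.mem_filter, Finset.mem_powerset] at hU
    rw [h U hU.1 hU.2, zero_mul]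
    unfold mon
    exact AddMonoidAlgebra.single_zero _

lemma vU_ne {s : Finset (K × ℕ)} (hs : ∀ β ∈ s, β.1 ≠ 0) (U : Finset (K × ℕ)) (hU : U ⊆ s) :
    vU U ≠ 0 := by
  unfold vU
  rw [Finset.prod_ne_zero_iff]
  intro β hβ
  exact pow_ne_zero _ (hs β (hU hβ))

lemma vI_ne {s : Finset (K × ℕ)} (hs : ∀ β ∈ s, β.1 ≠ 0) (U : Finset (K × ℕ)) (hU : U ⊆ s) :
    vI U ≠ 0 := by
  unfold vI
  rw [Finset.prod_ne_zero_iff]
  intro β hβ
  exact inv_ne_zero (pow_ne_zero _ (hs β (hU hβ)))

/-- `hh = 0` criterion. -/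
lemma hh_zero_iff (BG s : Finset (K × ℕ)) (hs : ∀ β ∈ s, β.1 ≠ 0) (n : ℕ) :
    hh BG s n = 0 ↔ ∀ U, U ⊆ s → qs U ≤ n → phi BG (n - qs U) = 0 := by
  unfold hh
  simp only [coeff_EE]
  exact lin_crit (phi BG) s vU n (vU_ne hs)

lemma hhI_zero_iff (BG s : Finset (K × ℕ)) (hs : ∀ β ∈ s, β.1 ≠ 0) (n : ℕ) :
    hhI BG s n = 0 ↔ ∀ U, U ⊆ s → qs U ≤ n → phiI BG (n - qs U) = 0 := by
  unfold hhI
  simp only [coeff_EEI]
  exact lin_crit (phiI BG) s vI n (vI_ne hs)

/-! ## Augmentation and units -/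

/-- The augmentation. -/
noncomputable def aug : QB K →ₐ[K] K :=
  AddMonoidAlgebra.lift K K ((K × ℕ) →₀ ZMod 2) 1

lemma aug_single (g : (K × ℕ) →₀ ZMod 2) (c : K) :
    aug (AddMonoidAlgebra.single g c : QB K) = c := by
  unfold aug
  rw [AddMonoidAlgebra.lift_single]
  simp

lemma sq_eq [CharP K 2] (z : QB K) : z ^ 2 = algebraMap K (QB K) (aug z ^ 2) := by
  have : CharP (QB K) 2 := charP_of_injective_algebraMap (algebraMap K (QB K)).injective 2
  induction z using AddMonoidAlgebra.induction_linear with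
  | zero => simp
  | add x y hx hy =>
    rw [CharTwo.add_sq, hx, hy, map_add, CharTwo.add_sq, map_add]
  | single g c =>
    rw [aug_single, sq, AddMonoidAlgebra.single_mul_single]
    have h1 : g + g = 0 := by
      ext β
      rw [Finsupp.add_apply, Finsupp.zero_apply]
      exact CharTwo.add_self_eq_zero _
    rw [h1, ← sq]
    rfl

lemma isUnit_of_aug [CharP K 2] {z : QB K} (h : aug z ≠ 0) : IsUnit z := by
  have h1 := sq_eq z
  have h2 : IsUnit (z ^ 2) := by
    rw [h1]
    exact (IsUnit.mk0 _ (pow_ne_zero 2 h)).map (algebraMap K (QB K))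
  exact (isUnit_pow_iff (two_ne_zero)).1 h2

lemma aug_EE (s : Finset (K × ℕ)) : (EE s).map (aug : QB K →ₐ[K] K).toRingHom = E0 s := by
  unfold EE E0
  rw [Polynomial.map_prod]
  apply Finset.prod_congr rfl
  intro β _
  rw [Polynomial.map_add, Polynomial.map_one, Polynomial.map_mul, Polynomial.map_C,
    Polynomial.map_pow, Polynomial.map_X]
  congr 3
  exact aug_single _ _

lemma aug_coeff_EE (s : Finset (K × ℕ)) (j : ℕ) : aug ((EE s).coeff j) = (E0 s).coeff j := by
  rw [← aug_EE, Polynomial.coeff_map]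
  rfl

end Pool.Agent.Helper58.SNE
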