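import Pool.Agent.Helper58.SNE.Alg1

/-!
# Even part, block ring: blocks, subset sums, structure of `G`
-/

set_option autoImplicit false
set_option linter.unusedSectionVars false

namespace Pool.Agent.Helper58.SNE

open Polynomial Finset

variable {K : Type} [Field K]

/-- `t` = blocks of `G / (t - d)` when `s` = blocks of `G`. -/
def Rl (s t : Finset (K × ℕ)) (d : K) (a : ℕ) : Prop :=
  (d, a) ∈ s ∧ (∀ b < a, (d, b) ∉ s) ∧ ∀ β, β ∈ t ↔ (β ∈ s ∧ β ≠ (d, a)) ∨ (β.1 = d ∧ β.2 < a)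

lemma Rl.eq [DecidableEq (K × ℕ)] {s t : Finset (K × ℕ)} {d : K} {a : ℕ} (h : Rl s t d a) :
    t = (s.erase (d, a)) ∪ (range a).image (fun b => (d, b)) := by
  ext β
  rw [h.2.2, Finset.mem_union, Finset.mem_erase, Finset.mem_image]
  constructor
  · rintro (⟨h1, h2⟩ | ⟨h1, h2⟩)
    · exact Or.inl ⟨h2, h1⟩
    · exact Or.inr ⟨β.2, Finset.mem_range.2 h2, by rw [← h1]⟩
  · rintro (⟨h1, h2⟩ | ⟨b, h1, h2⟩)
    · exact Or.inl ⟨h2, h1⟩
    · right
      rw [← h2]
      exact ⟨rfl, Finset.mem_range.1 h1⟩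

lemma Rl.disj [DecidableEq (K × ℕ)] {s t : Finset (K × ℕ)} {d : K} {a : ℕ} (h : Rl s t d a) :
    Disjoint (s.erase (d, a)) ((range a).image (fun b => (d, b))) := by
  rw [Finset.disjoint_left]
  intro β h1 h2
  rw [Finset.mem_image] at h2
  obtain ⟨b, hb, rfl⟩ := h2
  exact h.2.1 b (Finset.mem_range.1 hb) (Finset.mem_erase.1 h1).2

lemma sum_two_pow (a : ℕ) : ∑ b ∈ range a, 2 ^ b + 1 = 2 ^ a := by
  induction a with
  | zero => simp
  | succ n ih => rw [Finset.sum_range_succ, pow_succ]; omega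

lemma inj_pair (d : K) : Function.Injective (fun b : ℕ => (d, b)) := by
  intro x y h
  exact (Prod.mk.inj h).2

lemma Rl.qs {s t : Finset (K × ℕ)} {d : K} {a : ℕ} (h : Rl s t d a) :
    SNE.qs t + 1 = SNE.qs s := by
  classical
  rw [h.eq]
  unfold SNE.qs
  rw [Finset.sum_union h.disj, Finset.sum_image (fun x _ y _ hxy => inj_pair d hxy)]
  have h1 := sum_two_pow a
  have h2 := Finset.add_sum_erase s (fun β => 2 ^ β.2) h.1
  simp only at h2
  rw [← h2, ← h1]
  simp only
  ring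

lemma prod_low [CharP K 2] (d : K) (a : ℕ) :
    (1 + C d * X) * ∏ b ∈ range a, (1 + C (d ^ (2 ^ b)) * X ^ (2 ^ b) : K[X])
      = 1 + C (d ^ (2 ^ a)) * X ^ (2 ^ a) := by
  induction a with
  | zero => simp
  | succ n ih =>
    rw [Finset.prod_range_succ, ← mul_assoc, ih]
    have h1 : ∀ y : K[X], (1 + y) * (1 + y) = 1 + y ^ 2 := by
      intro y
      rw [← sq, CharTwo.add_sq, one_pow]
    rw [h1, mul_pow, ← pow_mul, ← C_pow, ← pow_mul, ← pow_succ]

lemma Rl.E0 [CharP K 2] {s t : Finset (K × ℕ)} {d : K} {a : ℕ} (h : Rl s t d a) :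
    (1 + C d * X) * SNE.E0 t = SNE.E0 s := by
  classical
  rw [h.eq]
  unfold SNE.E0
  rw [Finset.prod_union h.disj, Finset.prod_image (fun x _ y _ hxy => inj_pair d hxy)]
  have h2 := Finset.mul_prod_erase s
    (fun β => (1 + C (β.1 ^ (2 ^ β.2)) * X ^ (2 ^ β.2) : K[X])) h.1
  rw [← h2]
  simp only
  rw [← prod_low d a]
  ring

lemma Rl.filter {s t : Finset (K × ℕ)} {d : K} {a : ℕ} (h : Rl s t d a) (c : ℕ) (hc : a < c) :
    Rl (s.filter (fun β => β.2 < c)) (t.filter (fun β => β.2 < c)) d a := by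
  classical
  refine ⟨Finset.mem_filter.2 ⟨h.1, hc⟩, fun b hb h1 => h.2.1 b hb (Finset.mem_filter.1 h1).1, ?_⟩
  intro β
  rw [Finset.mem_filter, Finset.mem_filter, h.2.2]
  constructor
  · rintro ⟨⟨h1, h2⟩ | ⟨h1, h2⟩, h3⟩
    · exact Or.inl ⟨⟨h1, h3⟩, h2⟩
    · exact Or.inr ⟨h1, h2⟩
  · rintro (⟨⟨h1, h3⟩, h2⟩ | ⟨h1, h2⟩)
    · exact ⟨Or.inl ⟨h1, h2⟩, h3⟩
    · exact ⟨Or.inr ⟨h1, h2⟩, by omega⟩

lemma Rl.filter_ge {s t : Finset (K × ℕ)} {d : K} {a : ℕ} (h : Rl s t d a) (c : ℕ) (hc : a < c) :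
    t.filter (fun β => ¬ β.2 < c) = s.filter (fun β => ¬ β.2 < c) := by
  classical
  ext β
  rw [Finset.mem_filter, Finset.mem_filter, h.2.2]
  constructor
  · rintro ⟨⟨h1, h2⟩ | ⟨h1, h2⟩, h3⟩
    · exact ⟨h1, h3⟩
    · exact absurd (by omega) h3
  · rintro ⟨h1, h2⟩
    refine ⟨Or.inl ⟨h1, ?_⟩, h2⟩
    rintro rfl
    exact h2 hc

/-! ## Subset sums -/

lemma qs_union [DecidableEq (K × ℕ)] {U V : Finset (K × ℕ)} (h : Disjoint U V) :
    qs (U ∪ V) = qs U + qs V := Finset.sum_union h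

lemma qs_filter_add (t : Finset (K × ℕ)) (p : K × ℕ → Prop) [DecidablePred p] :
    qs (t.filter p) + qs (t.filter (fun β => ¬ p β)) = qs t :=
  Finset.sum_filter_add_sum_filter_not t p _

lemma qs_mono {U V : Finset (K × ℕ)} (h : U ⊆ V) : qs U ≤ qs V :=
  Finset.sum_le_sum_of_subset h

lemma subset_sums (t : Finset (K × ℕ)) (c0 : ℕ)
    (h : ∀ c < c0, 2 ^ c ≤ 1 + qs (t.filter (fun β => β.2 < c))) :
    ∀ c ≤ c0, ∀ n ≤ qs (t.filter (fun β => β.2 < c)),
      ∃ U, U ⊆ t.filter (fun β => β.2 < c) ∧ qs U = n := by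
  classical
  intro c
  induction c with
  | zero =>
    intro _ n hn
    refine ⟨∅, Finset.empty_subset _, ?_⟩
    have h1 : t.filter (fun β => β.2 < 0) = ∅ := by
      rw [Finset.filter_eq_empty_iff]
      intro β _
      omega
    rw [h1, qs_empty] at hn
    rw [qs_empty]; omega
  | succ c ih =>
    intro hc n hn
    have hih := ih (by omega)
    set F := t.filter (fun β => β.2 = c) with hF
    have hsplit : t.filter (fun β => β.2 < c + 1) = t.filter (fun β => β.2 < c) ∪ F := by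
      ext β
      rw [Finset.mem_union, hF, Finset.mem_filter, Finset.mem_filter, Finset.mem_filter]
      constructor
      · rintro ⟨h1, h2⟩
        by_cases h3 : β.2 = c
        · exact Or.inr ⟨h1, h3⟩
        · exact Or.inl ⟨h1, by omega⟩
      · rintro (⟨h1, h2⟩ | ⟨h1, h2⟩)
        · exact ⟨h1, by omega⟩
        · exact ⟨h1, by omega⟩
    have hdisj : Disjoint (t.filter (fun β => β.2 < c)) F := by
      rw [Finset.disjoint_left]
      intro β h1 h2
      rw [hF, Finset.mem_filter] at h2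
      rw [Finset.mem_filter] at h1
      omega
    have hcard : ∀ F', F' ⊆ F → qs F' = F'.card * 2 ^ c := by
      intro F' hF'
      unfold qs
      rw [Finset.sum_congr rfl (g := fun _ => 2 ^ c), Finset.sum_const, smul_eq_mul]
      intro β hβ
      have := hF' hβ
      rw [hF, Finset.mem_filter] at this
      rw [this.2]
    rw [hsplit, qs_union hdisj, hcard F (Finset.Subset.refl _)] at hn
    have hpos : 0 < 2 ^ c := by positivity
    have h2c := h c (by omega)
    by_cases hcase : F.card * 2 ^ c ≤ n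
    · obtain ⟨U, hU, hUq⟩ := hih (n - F.card * 2 ^ c) (by omega)
      refine ⟨U ∪ F, ?_, ?_⟩
      · rw [hsplit]; exact Finset.union_subset_union hU (Finset.Subset.refl _)
      · rw [qs_union (Finset.disjoint_of_subset_left hU hdisj), hUq,
          hcard F (Finset.Subset.refl _)]
        omega
    · have hlt : n / 2 ^ c < F.card := by
        rw [Nat.div_lt_iff_lt_mul hpos]; omega
      obtain ⟨F', hF', hF'c⟩ := Finset.exists_subset_card_eq (le_of_lt hlt)
      have hmod : n % 2 ^ c < 2 ^ c := Nat.mod_lt _ hpos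
      obtain ⟨U, hU, hUq⟩ := hih (n % 2 ^ c) (by omega)
      refine ⟨U ∪ F', ?_, ?_⟩
      · rw [hsplit]; exact Finset.union_subset_union hU hF'
      · rw [qs_union (Finset.disjoint_of_subset_left hU (Finset.disjoint_of_subset_right hF' hdisj)),
          hUq, hcard F' hF', hF'c]
        have := Nat.div_add_mod n (2 ^ c)
        rw [mul_comm] at this
        omega

/-! ## Coefficients of the small and big parts -/

lemma E0_split (s : Finset (K × ℕ)) (p : K × ℕ → Prop) [DecidablePred p] :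
    E0 s = E0 (s.filter p) * E0 (s.filter (fun β => ¬ p β)) :=
  (Finset.prod_filter_mul_prod_filter_not s p _).symm

lemma E0I_split (s : Finset (K × ℕ)) (p : K × ℕ → Prop) [DecidablePred p] :
    E0I s = E0I (s.filter p) * E0I (s.filter (fun β => ¬ p β)) :=
  (Finset.prod_filter_mul_prod_filter_not s p _).symm

lemma EE_split (s : Finset (K × ℕ)) (p : K × ℕ → Prop) [DecidablePred p] :
    EE s = EE (s.filter p) * EE (s.filter (fun β => ¬ p β)) :=
  (Finset.prod_filter_mul_prod_filter_not s p _).symm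

/-- A nonempty set of blocks of size `> N` has total size `> N`. -/
lemma qs_big {s : Finset (K × ℕ)} {N : ℕ} (hs : ∀ β ∈ s, N < 2 ^ β.2) {U : Finset (K × ℕ)}
    (hU : U ⊆ s) (hne : U.Nonempty) : N < qs U := by
  obtain ⟨β, hβ⟩ := hne
  have h1 := hs β (hU hβ)
  have h2 : 2 ^ β.2 ≤ qs U := Finset.single_le_sum (f := fun β : K × ℕ => 2 ^ β.2)
    (fun _ _ => Nat.zero_le _) hβ
  omega

lemma coeff_E0_big {s : Finset (K × ℕ)} {N : ℕ} (hs : ∀ β ∈ s, N < 2 ^ β.2) (j : ℕ)
    (h1 : 1 ≤ j) (h2 : j ≤ N) : (E0 s).coeff j = 0 := by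
  rw [coeff_E0]
  apply Finset.sum_eq_zero
  intro U hU
  rw [Finset.mem_filter, Finset.mem_powerset] at hU
  exfalso
  have hne : U.Nonempty := by
    rw [Finset.nonempty_iff_ne_empty]
    rintro rfl
    rw [qs_empty] at hU
    omega
  have := qs_big hs hU.1 hne
  omega

lemma coeff_E0I_big {s : Finset (K × ℕ)} {N : ℕ} (hs : ∀ β ∈ s, N < 2 ^ β.2) (j : ℕ)
    (h1 : 1 ≤ j) (h2 : j ≤ N) : (E0I s).coeff j = 0 := by
  rw [coeff_E0I]
  apply Finset.sum_eq_zero
  intro U hU
  rw [Finset.mem_filter, Finset.mem_powerset] at hU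
  exfalso
  have hne : U.Nonempty := by
    rw [Finset.nonempty_iff_ne_empty]
    rintro rfl
    rw [qs_empty] at hU
    omega
  have := qs_big hs hU.1 hne
  omega

lemma coeff_E0_zero (s : Finset (K × ℕ)) : (E0 s).coeff 0 = 1 := by
  unfold E0
  rw [Polynomial.coeff_zero_eq_eval_zero, Polynomial.eval_prod]
  apply Finset.prod_eq_one
  intro β _
  rw [Polynomial.eval_add, Polynomial.eval_one, Polynomial.eval_mul, Polynomial.eval_pow,
    Polynomial.eval_X, zero_pow (by positivity), mul_zero, add_zero]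

lemma coeff_E0I_zero (s : Finset (K × ℕ)) : (E0I s).coeff 0 = 1 := by
  unfold E0I
  rw [Polynomial.coeff_zero_eq_eval_zero, Polynomial.eval_prod]
  apply Finset.prod_eq_one
  intro β _
  rw [Polynomial.eval_add, Polynomial.eval_one, Polynomial.eval_mul, Polynomial.eval_pow,
    Polynomial.eval_X, zero_pow (by positivity), mul_zero, add_zero]

/-- `A = 1 mod X^(N+1)` implies `(B A)^2 = B^2` up to degree `N`. -/
lemma coeff_sq_mul (B A : K[X]) (N : ℕ) (h0 : A.coeff 0 = 1)
    (h : ∀ j, 1 ≤ j → j ≤ N → A.coeff j = 0) (n : ℕ) (hn : n ≤ N) :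
    ((B * A) ^ 2).coeff n = (B ^ 2).coeff n := by
  have h1 : X ^ (N + 1) ∣ (A - 1) := by
    rw [Polynomial.X_pow_dvd_iff]
    intro j hj
    rw [Polynomial.coeff_sub, Polynomial.coeff_one]
    by_cases h3 : j = 0
    · rw [h3, h0, if_pos rfl, sub_self]
    · rw [h j (by omega) (by omega), if_neg h3, sub_zero]
  have h2 : X ^ (N + 1) ∣ ((B * A) ^ 2 - B ^ 2) := by
    have : (B * A) ^ 2 - B ^ 2 = (A - 1) * ((A + 1) * B ^ 2) := by ring
    rw [this]
    exact dvd_mul_of_dvd_left h1 _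
  rw [Polynomial.X_pow_dvd_iff] at h2
  have h3 := h2 n (by omega)
  rw [Polynomial.coeff_sub, sub_eq_zero] at h3
  exact h3

lemma coeff_sq [CharP K 2] (H : K[X]) (i : ℕ) : (H ^ 2).coeff (2 * i) = H.coeff i ^ 2 := by
  have : ExpChar K 2 := ExpChar.prime Nat.prime_two
  rw [← Polynomial.map_frobenius_expand (p := 2), Polynomial.coeff_map,
    Polynomial.coeff_expand_mul' (by norm_num), frobenius_def]

lemma rev_coeff {s : Finset (K × ℕ)} (hs : ∀ β ∈ s, β.1 ≠ 0) (j : ℕ) (hj : j ≤ qs s) :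
    (E0 s).coeff (qs s - j) = vU s * (E0I s).coeff j := by
  classical
  rw [coeff_E0, coeff_E0I, Finset.mul_sum]
  have key : ∀ U, U ⊆ s → qs (s \ U) + qs U = qs s := by
    intro U hU
    exact Finset.sum_sdiff hU
  apply Finset.sum_nbij' (fun U => s \ U) (fun U => s \ U)
  · intro U hU
    rw [Finset.mem_filter, Finset.mem_powerset] at hU ⊢
    have := key U hU.1
    exact ⟨Finset.sdiff_subset, by omega⟩
  · intro U hU
    rw [Finset.mem_filter, Finset.mem_powerset] at hU ⊢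
    have := key U hU.1
    exact ⟨Finset.sdiff_subset, by omega⟩
  · intro U hU
    rw [Finset.mem_filter, Finset.mem_powerset] at hU
    exact Finset.sdiff_sdiff_eq_self hU.1
  · intro U hU
    rw [Finset.mem_filter, Finset.mem_powerset] at hU
    exact Finset.sdiff_sdiff_eq_self hU.1
  · intro U hU
    rw [Finset.mem_filter, Finset.mem_powerset] at hU
    have h1 : vU s = vU (s \ U) * vU U := (Finset.prod_sdiff hU.1).symm
    have h2 : vU (s \ U) * vI (s \ U) = 1 := by
      unfold vU vI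
      rw [← Finset.prod_mul_distrib]
      apply Finset.prod_eq_one
      intro β hβ
      exact mul_inv_cancel₀ (pow_ne_zero _ (hs β (Finset.sdiff_subset hβ)))
    rw [h1]
    calc vU U = (vU (s \ U) * vI (s \ U)) * vU U := by rw [h2, one_mul]
      _ = vU (s \ U) * vU U * vI (s \ U) := by ring

end Pool.Agent.Helper58.SNE
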