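import Pool.Agent.Helper58.SNE.Alg2

/-!
# Even part, block ring: coefficients of `1 / E_f`, the structure of `G`
-/

set_option autoImplicit false
set_option linter.unusedSectionVars false

namespace Pool.Agent.Helper58.SNE

open Polynomial Finset

variable {K : Type} [Field K]

/-- Coefficients of the inverse power series. -/
noncomputable def inv (P : K[X]) (n : ℕ) : K := PowerSeries.coeff n ((P : PowerSeries K))⁻¹

lemma phi_eq (BG : Finset (K × ℕ)) (n : ℕ) : phi BG n = inv ((E0 BG) ^ 2) n := by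
  unfold phi inv
  rw [Polynomial.coe_pow]

lemma phiI_eq (BG : Finset (K × ℕ)) (n : ℕ) : phiI BG n = inv ((E0I BG) ^ 2) n := by
  unfold phiI inv
  rw [Polynomial.coe_pow]

lemma inv_conv (P : K[X]) (h0 : P.coeff 0 = 1) (n : ℕ) :
    ∑ i ∈ range (n + 1), P.coeff i * inv P (n - i) = if n = 0 then 1 else 0 := by
  have h1 : (P : PowerSeries K) * ((P : PowerSeries K))⁻¹ = 1 := by
    apply PowerSeries.mul_inv_cancel
    rw [← PowerSeries.coeff_zero_eq_constantCoeff_apply, Polynomial.coeff_coe, h0]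
    exact one_ne_zero
  have h2 := congrArg (PowerSeries.coeff n) h1
  rw [PowerSeries.coeff_mul, PowerSeries.coeff_one,
    Finset.Nat.sum_antidiagonal_eq_sum_range_succ
      (fun i j => PowerSeries.coeff i (P : PowerSeries K)
        * PowerSeries.coeff j ((P : PowerSeries K))⁻¹) n] at h2
  rw [← h2]
  apply Finset.sum_congr rfl
  intro i _
  rw [Polynomial.coeff_coe]
  rfl

lemma inv_zero (P : K[X]) (h0 : P.coeff 0 = 1) : inv P 0 = 1 := by
  have h := inv_conv P h0 0
  rw [Finset.sum_range_one, h0, one_mul, if_pos rfl] at h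
  exact h

lemma coeff_of_inv (P : K[X]) (h0 : P.coeff 0 = 1) (N : ℕ)
    (h : ∀ n, 1 ≤ n → n ≤ N → inv P n = 0) (n : ℕ) (h1 : 1 ≤ n) (h2 : n ≤ N) :
    P.coeff n = 0 := by
  have h3 := inv_conv P h0 n
  rw [if_neg (by omega), Finset.sum_range_succ, Nat.sub_self, inv_zero P h0, mul_one] at h3
  rw [Finset.sum_eq_zero, zero_add] at h3
  · exact h3
  · intro i hi
    rw [Finset.mem_range] at hi
    rw [h (n - i) (by omega) (by omega), mul_zero]

/-- Values of the inverse when `P = 1 + g X^(2N)` up to degree `M`. -/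
lemma inv_values [CharP K 2] (P : K[X]) (h0 : P.coeff 0 = 1) (T M : ℕ) (hT : 1 ≤ T) (g : K)
    (hg : P.coeff T = g) (h : ∀ i, 1 ≤ i → i < M → i ≠ T → P.coeff i = 0) :
    ∀ n, n < M → inv P n = if T ∣ n then g ^ (n / T) else 0 := by
  intro n
  induction n using Nat.strong_induction_on with
  | _ n ih =>
    intro hn
    rcases Nat.eq_zero_or_pos n with h1 | h1
    · subst h1
      rw [inv_zero P h0, if_pos (dvd_zero _), Nat.zero_div, pow_zero]
    · have h3 := inv_conv P h0 n
      rw [if_neg (by omega), Finset.sum_range_succ', h0, one_mul, Nat.sub_zero] at h3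
      by_cases h4 : T ≤ n
      · rw [Finset.sum_eq_single (T - 1)] at h3
        · have h5 : T - 1 + 1 = T := by omega
          rw [h5, hg, ih (n - T) (by omega) (by omega)] at h3
          have h6 : inv P n = g * (if T ∣ n - T then g ^ ((n - T) / T) else 0) :=
            (CharTwo.add_eq_zero.1 h3).symm
          rw [h6]
          by_cases h7 : T ∣ n
          · have h8 : T ∣ n - T := Nat.dvd_sub h7 (dvd_refl T)
            rw [if_pos h7, if_pos h8, ← pow_succ']
            congr 1
            obtain ⟨m, rfl⟩ := h7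
            have h9 : T * m - T = T * (m - 1) := by
              rw [Nat.mul_sub, mul_one]
            have hm : 1 ≤ m := by
              rcases Nat.eq_zero_or_pos m with h | h
              · subst h; omega
              · exact h
            rw [h9, Nat.mul_div_cancel_left _ (by omega), Nat.mul_div_cancel_left _ (by omega)]
            omega
          · have h8 : ¬ T ∣ n - T := by
              intro h8
              apply h7
              have := Nat.dvd_add h8 (dvd_refl T)
              rwa [Nat.sub_add_cancel h4] at this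
            rw [if_neg h7, if_neg h8, mul_zero]
        · intro i hi hne
          rw [Finset.mem_range] at hi
          rw [h (i + 1) (by omega) (by omega) (by omega), zero_mul]
        · intro h5
          exact absurd (Finset.mem_range.2 (by omega)) h5
      · rw [Finset.sum_eq_zero, zero_add] at h3
        · rw [h3, if_neg]
          intro h5
          exact h4 (Nat.le_of_dvd h1 h5)
        · intro i hi
          rw [Finset.mem_range] at hi
          rw [h (i + 1) (by omega) (by omega) (by omega), zero_mul]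

/-- Context. -/
structure Ctx (BG BY : Finset (K × ℕ)) (d : K) (a c0 N : ℕ) : Prop where
  rl : Rl BG BY d a
  h0 : ∀ β ∈ BG, β.1 ≠ 0
  hac : a < c0
  hN : N = qs (BG.filter (fun β => β.2 < c0))
  hNc : N < 2 ^ c0
  ss : ∀ n, n + 1 ≤ N → ∃ U, U ⊆ BY.filter (fun β => β.2 < c0) ∧ qs U = n
  ph : ∀ U, U ⊆ BY → phi BG (1 + qs U) = 0
  phI : ∀ U, U ⊆ BY → phiI BG (1 + qs U) = 0

section
variable {BG BY : Finset (K × ℕ)} {d : K} {a c0 N : ℕ}

/-- The context exists. -/
lemma exists_ctx (rl : Rl BG BY d a) (h0 : ∀ β ∈ BG, β.1 ≠ 0)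
    (h1 : hh BG BY (qs BG) = 0) (h1I : hhI BG BY (qs BG) = 0) :
    ∃ c0 N, Ctx BG BY d a c0 N := by
  classical
  have hd : d ≠ 0 := h0 _ rl.1
  have hY0 : ∀ β ∈ BY, β.1 ≠ 0 := by
    intro β hβ
    rcases (rl.2.2 β).1 hβ with ⟨h, _⟩ | ⟨h, _⟩
    · exact h0 β h
    · rw [h]; exact hd
  have hqY := rl.qs
  have hcomp : ∀ U, U ⊆ BY → qs (BY \ U) + qs U = qs BY := fun U hU => Finset.sum_sdiff hU
  have ph : ∀ U, U ⊆ BY → phi BG (1 + qs U) = 0 := by
    intro U hU
    have h3 := hcomp U hU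
    have h2 := (hh_zero_iff BG BY hY0 (qs BG)).1 h1 (BY \ U) Finset.sdiff_subset (by omega)
    have h4 : qs BG - qs (BY \ U) = 1 + qs U := by omega
    rwa [h4] at h2
  have phI : ∀ U, U ⊆ BY → phiI BG (1 + qs U) = 0 := by
    intro U hU
    have h3 := hcomp U hU
    have h2 := (hhI_zero_iff BG BY hY0 (qs BG)).1 h1I (BY \ U) Finset.sdiff_subset (by omega)
    have h4 : qs BG - qs (BY \ U) = 1 + qs U := by omega
    rwa [h4] at h2
  have hex : ∃ c, 1 + qs (BY.filter (fun β => β.2 < c)) < 2 ^ c := by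
    refine ⟨qs BG, ?_⟩
    have h5 := qs_mono (Finset.filter_subset (fun β : K × ℕ => β.2 < qs BG) BY)
    have h6 : qs BG < 2 ^ qs BG := Nat.lt_two_pow_self
    omega
  obtain ⟨hc1, hc2⟩ : 1 + qs (BY.filter (fun β => β.2 < Nat.find hex)) < 2 ^ Nat.find hex ∧
      ∀ c < Nat.find hex, 2 ^ c ≤ 1 + qs (BY.filter (fun β => β.2 < c)) :=
    ⟨Nat.find_spec hex, fun c hc => not_lt.1 (Nat.find_min hex hc)⟩
  set c0 := Nat.find hex with hc0
  have hac : a < c0 := by
    by_contra hcon
    rw [not_lt] at hcon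
    have h7 : (range c0).image (fun b => (d, b)) ⊆ BY.filter (fun β => β.2 < c0) := by
      intro β hβ
      rw [Finset.mem_image] at hβ
      obtain ⟨b, hb, rfl⟩ := hβ
      rw [Finset.mem_range] at hb
      rw [Finset.mem_filter, rl.2.2]
      exact ⟨Or.inr ⟨rfl, by omega⟩, hb⟩
    have h8 := qs_mono h7
    have h9 : qs ((range c0).image (fun b => (d, b))) = ∑ b ∈ range c0, 2 ^ b := by
      unfold qs
      rw [Finset.sum_image (fun x _ y _ hxy => inj_pair d hxy)]
    have h10 := sum_two_pow c0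
    omega
  have hsmall := (rl.filter c0 hac).qs
  refine ⟨c0, qs (BG.filter (fun β => β.2 < c0)), rl, h0, hac, rfl, by omega, ?_, ph, phI⟩
  intro n hn
  exact subset_sums BY c0 hc2 c0 le_rfl n (by omega)

namespace Ctx

lemma hd (c : Ctx BG BY d a c0 N) : d ≠ 0 := c.h0 _ c.rl.1

lemma hN1 (c : Ctx BG BY d a c0 N) : qs (BY.filter (fun β => β.2 < c0)) + 1 = N := by
  rw [(c.rl.filter c0 c.hac).qs, c.hN]

lemma hNpos (c : Ctx BG BY d a c0 N) : 1 ≤ N := by
  have := c.hN1
  omega

lemma big_size (_ : Ctx BG BY d a c0 N) :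
    ∀ β ∈ BG.filter (fun β => ¬ β.2 < c0), 2 ^ c0 ≤ 2 ^ β.2 := by
  intro β hβ
  rw [Finset.mem_filter] at hβ
  exact Nat.pow_le_pow_right (by norm_num) (by omega)

lemma big_size' (c : Ctx BG BY d a c0 N) :
    ∀ β ∈ BG.filter (fun β => ¬ β.2 < c0), N < 2 ^ β.2 := by
  intro β hβ
  have h1 := c.big_size β hβ
  have h2 := c.hNc
  omega

/-- phi vanishes at `n + q(V)`, `1 <= n <= N`, `V` big. -/
lemma phi_big (c : Ctx BG BY d a c0 N) (n : ℕ) (h1 : 1 ≤ n) (h2 : n ≤ N)
    (V : Finset (K × ℕ)) (hV : V ⊆ BG.filter (fun β => ¬ β.2 < c0)) :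
    phi BG (n + qs V) = 0 := by
  classical
  obtain ⟨U, hU, hUq⟩ := c.ss (n - 1) (by omega)
  rw [← c.rl.filter_ge c0 c.hac] at hV
  have hdisj : Disjoint U V := by
    rw [Finset.disjoint_left]
    intro β hβ hβ'
    have h3 := (Finset.mem_filter.1 (hU hβ)).2
    have h4 := (Finset.mem_filter.1 (hV hβ')).2
    exact h4 h3
  have h5 := c.ph (U ∪ V) (Finset.union_subset (hU.trans (Finset.filter_subset _ _))
    (hV.trans (Finset.filter_subset _ _)))
  rw [qs_union hdisj, hUq] at h5
  have h6 : 1 + (n - 1 + qs V) = n + qs V := by omega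
  rwa [h6] at h5

lemma phi_small (c : Ctx BG BY d a c0 N) (n : ℕ) (h1 : 1 ≤ n) (h2 : n ≤ N) :
    phi BG n = 0 := by
  have := c.phi_big n h1 h2 ∅ (Finset.empty_subset _)
  rwa [qs_empty, add_zero] at this

lemma phiI_small (c : Ctx BG BY d a c0 N) (n : ℕ) (h1 : 1 ≤ n) (h2 : n ≤ N) :
    phiI BG n = 0 := by
  obtain ⟨U, hU, hUq⟩ := c.ss (n - 1) (by omega)
  have h5 := c.phI U (hU.trans (Finset.filter_subset _ _))
  rw [hUq] at h5
  have h6 : 1 + (n - 1) = n := by omega
  rwa [h6] at h5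

lemma low_half [CharP K 2] (c : Ctx BG BY d a c0 N) (i : ℕ) (h1 : 1 ≤ i) (h2 : 2 * i ≤ N) :
    (E0 (BG.filter (fun β => β.2 < c0))).coeff i = 0 := by
  classical
  have h3 : ((E0 BG) ^ 2).coeff (2 * i) = 0 := by
    apply coeff_of_inv _ _ N _ _ (by omega) h2
    · rw [Polynomial.coeff_zero_eq_eval_zero, Polynomial.eval_pow,
        ← Polynomial.coeff_zero_eq_eval_zero, coeff_E0_zero, one_pow]
    · intro n hn1 hn2
      rw [← phi_eq]
      exact c.phi_small n hn1 hn2
  rw [E0_split BG (fun β => β.2 < c0),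
    coeff_sq_mul _ _ N (coeff_E0_zero _) (fun j hj1 hj2 => coeff_E0_big c.big_size' j hj1 hj2)
      (2 * i) h2, coeff_sq] at h3
  exact pow_eq_zero_iff (two_ne_zero) |>.1 h3

lemma low_halfI [CharP K 2] (c : Ctx BG BY d a c0 N) (i : ℕ) (h1 : 1 ≤ i) (h2 : 2 * i ≤ N) :
    (E0I (BG.filter (fun β => β.2 < c0))).coeff i = 0 := by
  classical
  have h3 : ((E0I BG) ^ 2).coeff (2 * i) = 0 := by
    apply coeff_of_inv _ _ N _ _ (by omega) h2
    · rw [Polynomial.coeff_zero_eq_eval_zero, Polynomial.eval_pow,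
        ← Polynomial.coeff_zero_eq_eval_zero, coeff_E0I_zero, one_pow]
    · intro n hn1 hn2
      rw [← phiI_eq]
      exact c.phiI_small n hn1 hn2
  rw [E0I_split BG (fun β => β.2 < c0),
    coeff_sq_mul _ _ N (coeff_E0I_zero _) (fun j hj1 hj2 => coeff_E0I_big c.big_size' j hj1 hj2)
      (2 * i) h2, coeff_sq] at h3
  exact pow_eq_zero_iff (two_ne_zero) |>.1 h3

/-- `H = 1 + c X^N`: the middle coefficients vanish. -/
lemma H_mid [CharP K 2] (c : Ctx BG BY d a c0 N) (i : ℕ) (h1 : 1 ≤ i) (h2 : i < N) :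
    (E0 (BG.filter (fun β => β.2 < c0))).coeff i = 0 := by
  classical
  by_cases h3 : 2 * i ≤ N
  · exact c.low_half i h1 h3
  · have hs : ∀ β ∈ BG.filter (fun β => β.2 < c0), β.1 ≠ 0 :=
      fun β hβ => c.h0 β (Finset.filter_subset _ _ hβ)
    have h4 := rev_coeff hs (N - i) (by rw [← c.hN]; omega)
    rw [← c.hN] at h4
    have h5 : N - (N - i) = i := by omega
    rw [h5] at h4
    rw [h4, c.low_halfI (N - i) (by omega) (by omega), mul_zero]

/-- The top coefficient of `H`. -/
lemma H_top [CharP K 2] (c : Ctx BG BY d a c0 N) :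
    (E0 (BG.filter (fun β => β.2 < c0))).coeff N = vU (BG.filter (fun β => β.2 < c0)) := by
  classical
  have hs : ∀ β ∈ BG.filter (fun β => β.2 < c0), β.1 ≠ 0 :=
    fun β hβ => c.h0 β (Finset.filter_subset _ _ hβ)
  have h4 := rev_coeff hs 0 (Nat.zero_le _)
  rw [Nat.sub_zero, coeff_E0I_zero, mul_one, ← c.hN] at h4
  exact h4

/-- Plain coefficients of the small part of `Y`. -/
lemma A0_coeff [CharP K 2] (c : Ctx BG BY d a c0 N) (j : ℕ) (hj : j < N) :
    (E0 (BY.filter (fun β => β.2 < c0))).coeff j = d ^ j := by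
  induction j with
  | zero => rw [coeff_E0_zero, pow_zero]
  | succ j ih =>
    have h1 := (c.rl.filter c0 c.hac).E0
    have h2 : Polynomial.coeff ((1 + C d * X) * E0 (BY.filter (fun β => β.2 < c0))) (j + 1)
        = Polynomial.coeff (E0 (BG.filter (fun β => β.2 < c0))) (j + 1) := by rw [h1]
    rw [c.H_mid (j + 1) (by omega) hj, add_mul, one_mul, Polynomial.coeff_add, mul_assoc,
      Polynomial.coeff_C_mul, Polynomial.coeff_X_mul, ih (by omega), ← pow_succ'] at h2
    exact CharTwo.add_eq_zero.1 h2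

lemma A_unit [CharP K 2] (c : Ctx BG BY d a c0 N) (j : ℕ) (hj : j < N) :
    IsUnit ((EE (BY.filter (fun β => β.2 < c0))).coeff j) := by
  apply isUnit_of_aug
  rw [aug_coeff_EE, c.A0_coeff j hj]
  exact pow_ne_zero _ c.hd

/-- gamma. -/
lemma gam_ne [CharP K 2] (c : Ctx BG BY d a c0 N) :
    vU (BG.filter (fun β => β.2 < c0)) ^ 2 ≠ 0 :=
  pow_ne_zero _ (vU_ne (fun β hβ => c.h0 β (Finset.filter_subset _ _ hβ)) _
    (Finset.Subset.refl _))

/-- Low coefficients of `E_f` when all big blocks have size `>= q0`. -/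
lemma Ef_coeff [CharP K 2] (c : Ctx BG BY d a c0 N) (q0 : ℕ) (hq : N < q0)
    (hbig : ∀ β ∈ BG.filter (fun β => ¬ β.2 < c0), q0 ≤ 2 ^ β.2) (i : ℕ) (h1 : 1 ≤ i)
    (h2 : i < 2 * q0) :
    ((E0 BG) ^ 2).coeff i = if i = 2 * N then vU (BG.filter (fun β => β.2 < c0)) ^ 2 else 0 := by
  classical
  have hNpos := c.hNpos
  rcases Nat.even_or_odd' i with ⟨j, hj | hj⟩
  · subst hj
    rw [coeff_sq, E0_split BG (fun β => β.2 < c0)]
    -- coefficient j of H * E0 big for j < q0
    have h3 : (E0 (BG.filter (fun β => β.2 < c0)) * E0 (BG.filter (fun β => ¬ β.2 < c0))).coeff j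
        = (E0 (BG.filter (fun β => β.2 < c0))).coeff j := by
      rw [Polynomial.coeff_mul, Finset.sum_eq_single (j, 0)]
      · rw [coeff_E0_zero, mul_one]
      · rintro ⟨x, y⟩ hxy hne
        rw [Finset.HasAntidiagonal.mem_antidiagonal] at hxy
        simp only at hxy ⊢
        have hy : y ≠ 0 := by
          rintro rfl
          apply hne
          rw [add_zero] at hxy
          rw [hxy]
        rw [coeff_E0_big (N := q0 - 1) (fun β hβ => by have := hbig β hβ; omega) y (by omega)
          (by omega), mul_zero]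
      · intro h
        exact absurd (Finset.HasAntidiagonal.mem_antidiagonal.2 (add_zero j)) h
    rw [h3]
    by_cases h4 : j = N
    · rw [h4, c.H_top, if_pos rfl]
    · rw [if_neg (by omega)]
      by_cases h5 : j < N
      · rw [c.H_mid j (by omega) h5]
        ring
      · have h6 : (E0 (BG.filter (fun β => β.2 < c0))).coeff j = 0 := by
          rw [coeff_E0]
          apply Finset.sum_eq_zero
          intro U hU
          rw [Finset.mem_filter, Finset.mem_powerset] at hU
          exfalso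
          have := qs_mono hU.1
          rw [← c.hN] at this
          omega
        rw [h6]
        ring
  · subst hj
    rw [if_neg (by omega)]
    have : ExpChar K 2 := ExpChar.prime Nat.prime_two
    rw [← Polynomial.map_frobenius_expand (p := 2), Polynomial.coeff_map,
      Polynomial.coeff_expand (by norm_num), if_neg (by omega), map_zero]

/-- Values of `phi` below `2 q0`. -/
lemma phi_values [CharP K 2] (c : Ctx BG BY d a c0 N) (q0 : ℕ) (hq : N < q0)
    (hbig : ∀ β ∈ BG.filter (fun β => ¬ β.2 < c0), q0 ≤ 2 ^ β.2) (n : ℕ) (hn : n < 2 * q0) :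
    phi BG n = if 2 * N ∣ n then (vU (BG.filter (fun β => β.2 < c0)) ^ 2) ^ (n / (2 * N))
      else 0 := by
  have hNpos := c.hNpos
  rw [phi_eq]
  apply inv_values _ _ (2 * N) (2 * q0) (by omega) _ _ _ n hn
  · rw [Polynomial.coeff_zero_eq_eval_zero, Polynomial.eval_pow,
      ← Polynomial.coeff_zero_eq_eval_zero, coeff_E0_zero, one_pow]
  · rw [c.Ef_coeff q0 hq hbig (2 * N) (by omega) (by omega), if_pos rfl]
  · intro i hi1 hi2 hi3
    rw [c.Ef_coeff q0 hq hbig i hi1 hi2, if_neg hi3]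

lemma phi_zero [CharP K 2] (_ : Ctx BG BY d a c0 N) : phi BG 0 = 1 := by
  rw [phi_eq]
  apply inv_zero
  rw [Polynomial.coeff_zero_eq_eval_zero, Polynomial.eval_pow,
    ← Polynomial.coeff_zero_eq_eval_zero, coeff_E0_zero, one_pow]

lemma phi_2N [CharP K 2] (c : Ctx BG BY d a c0 N) : phi BG (2 * N) ≠ 0 := by
  have hNpos := c.hNpos
  rw [c.phi_values (2 ^ c0) c.hNc c.big_size (2 * N) (by have := c.hNc; omega),
    if_pos (dvd_refl _)]
  exact pow_ne_zero _ c.gam_ne

end Ctx

end

end Pool.Agent.Helper58.SNE
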