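import Pool.Agent.Helper58.SNE.Alg3

/-!
# Even part, block ring: convolution, ladder, conclusion
-/

set_option autoImplicit false
set_option linter.unusedSectionVars false

namespace Pool.Agent.Helper58.SNE

open Polynomial Finset

variable {K : Type} [Field K]

/-! ## Convolution -/

noncomputable def PsiS (BG : Finset (K × ℕ)) : PowerSeries (QB K) :=
  PowerSeries.mk (fun m => algebraMap K (QB K) (phi BG m))

lemma hh_eq (BG s : Finset (K × ℕ)) (n : ℕ) :
    hh BG s n = PowerSeries.coeff n (((EE s : (QB K)[X]) : PowerSeries (QB K)) * PsiS BG) := by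
  rw [PowerSeries.coeff_mul, Finset.Nat.sum_antidiagonal_eq_sum_range_succ
    (fun i j => PowerSeries.coeff i ((EE s : (QB K)[X]) : PowerSeries (QB K))
        * PowerSeries.coeff j (PsiS BG)) n]
  unfold hh PsiS
  apply Finset.sum_congr rfl
  intro i _
  rw [Polynomial.coeff_coe, PowerSeries.coeff_mk, mul_comm]

lemma hh_conv (BG s s1 s2 : Finset (K × ℕ)) (h : EE s = EE s1 * EE s2) (n : ℕ) :
    hh BG s n = ∑ x ∈ range (n + 1), (EE s1).coeff x * hh BG s2 (n - x) := by
  rw [hh_eq, h, Polynomial.coe_mul, mul_assoc, PowerSeries.coeff_mul,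
    Finset.Nat.sum_antidiagonal_eq_sum_range_succ
      (fun i j => PowerSeries.coeff i ((EE s1 : (QB K)[X]) : PowerSeries (QB K))
        * PowerSeries.coeff j (((EE s2 : (QB K)[X]) : PowerSeries (QB K)) * PsiS BG)) n]
  apply Finset.sum_congr rfl
  intro i _
  rw [Polynomial.coeff_coe, hh_eq]

lemma coeff_EE_gt (s : Finset (K × ℕ)) (j : ℕ) (hj : qs s < j) : (EE s).coeff j = 0 := by
  rw [coeff_EE]
  apply Finset.sum_eq_zero
  intro U hU
  rw [Finset.mem_filter, Finset.mem_powerset] at hU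
  exfalso
  have := qs_mono hU.1
  omega

lemma coeff_EE_zero (s : Finset (K × ℕ)) : (EE s).coeff 0 = 1 := by
  unfold EE
  rw [Polynomial.coeff_zero_eq_eval_zero, Polynomial.eval_prod]
  apply Finset.prod_eq_one
  intro β _
  rw [Polynomial.eval_add, Polynomial.eval_one, Polynomial.eval_mul, Polynomial.eval_pow,
    Polynomial.eval_X, zero_pow (by positivity), mul_zero, add_zero]

lemma qs_eq_full {s U : Finset (K × ℕ)} (hU : U ⊆ s) (h : qs U = qs s) : U = s := by
  classical
  have h1 : qs (s \ U) + qs U = qs s := Finset.sum_sdiff hU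
  have h2 : qs (s \ U) = 0 := by omega
  apply Finset.Subset.antisymm hU
  intro β hβ
  by_contra h3
  have h4 : 2 ^ β.2 ≤ qs (s \ U) := Finset.single_le_sum (f := fun β : K × ℕ => 2 ^ β.2)
    (fun _ _ => Nat.zero_le _) (Finset.mem_sdiff.2 ⟨hβ, h3⟩)
  have h5 : 0 < 2 ^ β.2 := by positivity
  omega

lemma coeff_EE_top (s : Finset (K × ℕ)) : (EE s).coeff (qs s) = mon s (vU s) := by
  classical
  rw [coeff_EE, Finset.sum_eq_single s]
  · intro U hU hne
    rw [Finset.mem_filter, Finset.mem_powerset] at hU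
    exact absurd (qs_eq_full hU.1 hU.2) hne
  · intro h
    exact absurd (Finset.mem_filter.2 ⟨Finset.mem_powerset.2 (Finset.Subset.refl s),
      (rfl : qs s = qs s)⟩) h

lemma unit_top [CharP K 2] {s : Finset (K × ℕ)} (hs : ∀ β ∈ s, β.1 ≠ 0) :
    IsUnit ((EE s).coeff (qs s)) := by
  apply isUnit_of_aug
  rw [coeff_EE_top]
  unfold mon
  rw [aug_single]
  exact vU_ne hs s (Finset.Subset.refl _)

/-- Coefficients just below the top vanish when all blocks are big. -/
lemma coeff_EE_near {s : Finset (K × ℕ)} {M : ℕ} (hs : ∀ β ∈ s, M < 2 ^ β.2) (i j : ℕ)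
    (h1 : 1 ≤ i) (h2 : i ≤ M) (h3 : j + i = qs s) : (EE s).coeff j = 0 := by
  classical
  rw [coeff_EE]
  apply Finset.sum_eq_zero
  intro U hU
  rw [Finset.mem_filter, Finset.mem_powerset] at hU
  exfalso
  have h4 : qs (s \ U) + qs U = qs s := Finset.sum_sdiff hU.1
  have hne : (s \ U).Nonempty := by
    rw [Finset.nonempty_iff_ne_empty]
    intro h5
    rw [h5, qs_empty] at h4
    omega
  have := qs_big hs Finset.sdiff_subset hne
  omega

/-- Product of a polynomial with a big one: the coefficient near the top. -/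
lemma coeff_mul_big {s1 s2 : Finset (K × ℕ)} {M : ℕ} (hs : ∀ β ∈ s2, M < 2 ^ β.2) (x n : ℕ)
    (hn : n = qs s2 + x) (h1 : qs s1 ≤ M + x) :
    (EE s1 * EE s2).coeff n = (EE s1).coeff x * (EE s2).coeff (qs s2) := by
  rw [Polynomial.coeff_mul, Finset.sum_eq_single (x, qs s2)]
  · rintro ⟨y, z⟩ hyz hne
    rw [Finset.HasAntidiagonal.mem_antidiagonal] at hyz
    simp only at hyz ⊢
    rcases lt_trichotomy y x with h2 | h2 | h2
    · rw [coeff_EE_gt s2 z (by omega), mul_zero]
    · exfalso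
      apply hne
      rw [Prod.mk.injEq]
      omega
    · by_cases h3 : y ≤ qs s1
      · rw [coeff_EE_near hs (y - x) z (by omega) (by omega) (by omega), mul_zero]
      · rw [coeff_EE_gt s1 y (by omega), zero_mul]
  · intro h
    exact absurd (Finset.HasAntidiagonal.mem_antidiagonal.2 (by simp only; omega)) h

/-! ## `Phi` -/

lemma Phi_one {R : Type*} [CommRing R] (x y : R) : Phi 1 x y = 1 := by
  unfold Phi
  rw [Finset.sum_range_one]
  simp

lemma Phi_succ {R : Type*} [CommRing R] (e : ℕ) (x y : R) :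
    Phi (e + 1) x y = x ^ e + y * Phi e x y := by
  unfold Phi
  rw [Finset.sum_range_succ', Finset.mul_sum, add_comm]
  congr 1
  · rw [pow_zero, mul_one]
    congr 1
  · apply Finset.sum_congr rfl
    intro i _
    have h1 : e + 1 - 1 - (i + 1) = e - 1 - i := by omega
    rw [h1, pow_succ]
    ring

lemma Phi_mul {R : Type*} [CommRing R] (e : ℕ) (u x y : R) :
    Phi (e + 1) (u * x) (u * y) = u ^ e * Phi (e + 1) x y := by
  unfold Phi
  rw [Finset.mul_sum]
  apply Finset.sum_congr rfl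
  intro i hi
  rw [Finset.mem_range] at hi
  rw [mul_pow, mul_pow]
  have h1 : e + 1 - 1 - i + i = e := by omega
  calc u ^ (e + 1 - 1 - i) * x ^ (e + 1 - 1 - i) * (u ^ i * y ^ i)
      = (u ^ (e + 1 - 1 - i) * u ^ i) * (x ^ (e + 1 - 1 - i) * y ^ i) := by ring
    _ = u ^ e * (x ^ (e + 1 - 1 - i) * y ^ i) := by rw [← pow_add, h1]

/-! ## The ladder -/

section
variable {BG BY : Finset (K × ℕ)} {d : K} {a c0 N : ℕ}

namespace Ctx

lemma big_ne (c : Ctx BG BY d a c0 N) : ∀ β ∈ BG.filter (fun β => ¬ β.2 < c0), β.1 ≠ 0 :=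
  fun β hβ => c.h0 β (Finset.filter_subset _ _ hβ)

lemma split_G (_ : Ctx BG BY d a c0 N) :
    EE BG = EE (BG.filter (fun β => β.2 < c0)) * EE (BG.filter (fun β => ¬ β.2 < c0)) :=
  EE_split BG _

lemma split_Y (c : Ctx BG BY d a c0 N) :
    EE BY = EE (BY.filter (fun β => β.2 < c0)) * EE (BG.filter (fun β => ¬ β.2 < c0)) := by
  rw [← c.rl.filter_ge c0 c.hac]
  exact EE_split BY _

lemma total (c : Ctx BG BY d a c0 N) :
    N + qs (BG.filter (fun β => ¬ β.2 < c0)) = qs BG := by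
  have := qs_filter_add BG (fun β => β.2 < c0)
  rw [← c.hN] at this
  exact this

/-- y -/
lemma y_window (c : Ctx BG BY d a c0 N) (x : ℕ)
    (h1 : qs (BG.filter (fun β => ¬ β.2 < c0)) < x)
    (h2 : x ≤ qs (BG.filter (fun β => ¬ β.2 < c0)) + N) :
    hh BG (BG.filter (fun β => ¬ β.2 < c0)) x = 0 := by
  classical
  rw [hh_zero_iff _ _ c.big_ne]
  intro V hV hq
  have h3 : qs (BG.filter (fun β => ¬ β.2 < c0) \ V) + qs V
      = qs (BG.filter (fun β => ¬ β.2 < c0)) := Finset.sum_sdiff hV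
  have h4 := c.phi_big (x - qs (BG.filter (fun β => ¬ β.2 < c0))) (by omega) (by omega)
    (BG.filter (fun β => ¬ β.2 < c0) \ V) Finset.sdiff_subset
  have h5 : x - qs (BG.filter (fun β => ¬ β.2 < c0)) + qs (BG.filter (fun β => ¬ β.2 < c0) \ V)
      = x - qs V := by omega
  rwa [h5] at h4

lemma y_far [CharP K 2] (c : Ctx BG BY d a c0 N) :
    hh BG (BG.filter (fun β => ¬ β.2 < c0)) (qs (BG.filter (fun β => ¬ β.2 < c0)) + 2 * N) ≠ 0 := by
  intro h
  rw [hh_zero_iff _ _ c.big_ne] at h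
  have h1 := h _ (Finset.Subset.refl _) (by omega)
  rw [Nat.add_sub_cancel_left] at h1
  exact c.phi_2N h1

/-- `y` just above zero. -/
lemma y_small (c : Ctx BG BY d a c0 N) (M : ℕ)
    (hM : ∀ β ∈ BG.filter (fun β => ¬ β.2 < c0), M < 2 ^ β.2)
    (hphi : ∀ x, 1 ≤ x → x ≤ M → phi BG x = 0) (x : ℕ) (h1 : 1 ≤ x) (h2 : x ≤ M) :
    hh BG (BG.filter (fun β => ¬ β.2 < c0)) x = 0 := by
  rw [hh_zero_iff _ _ c.big_ne]
  intro V hV hq
  rcases Finset.eq_empty_or_nonempty V with h3 | h3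
  · rw [h3, qs_empty, Nat.sub_zero]
    exact hphi x h1 h2
  · have := qs_big hM hV h3
    omega

lemma y_zero [CharP K 2] (c : Ctx BG BY d a c0 N) :
    hh BG (BG.filter (fun β => ¬ β.2 < c0)) 0 = 1 := by
  unfold hh
  rw [Finset.sum_range_one, coeff_EE_zero, mul_one, Nat.sub_zero, c.phi_zero, map_one]

/-- The value `h_n` near the top of the window. -/
lemma conv_single (BG s s1 s2 : Finset (K × ℕ)) (h : EE s = EE s1 * EE s2) (n x : ℕ) (hx : x ≤ n)
    (hz : ∀ y, y ≤ n → y ≠ x → y ≤ qs s1 → hh BG s2 (n - y) = 0) :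
    hh BG s n = (EE s1).coeff x * hh BG s2 (n - x) := by
  rw [hh_conv BG s s1 s2 h, Finset.sum_eq_single x]
  · intro y hy hne
    rw [Finset.mem_range] at hy
    by_cases h1 : y ≤ qs s1
    · rw [hz y (by omega) hne h1, mul_zero]
    · rw [coeff_EE_gt s1 y (by omega), zero_mul]
  · intro h1
    exact absurd (Finset.mem_range.2 (by omega)) h1

lemma conv_none (BG s s1 s2 : Finset (K × ℕ)) (h : EE s = EE s1 * EE s2) (n : ℕ)
    (hz : ∀ y, y ≤ n → y ≤ qs s1 → hh BG s2 (n - y) = 0) :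
    hh BG s n = 0 := by
  rw [hh_conv BG s s1 s2 h]
  apply Finset.sum_eq_zero
  intro y hy
  rw [Finset.mem_range] at hy
  by_cases h1 : y ≤ qs s1
  · rw [hz y (by omega) h1, mul_zero]
  · rw [coeff_EE_gt s1 y (by omega), zero_mul]

/-- The ladder: `x1` = least `x > B` with `y(x) <> 0` satisfies `w < x1 - r + 1`. -/
lemma ladder [CharP K 2] (c : Ctx BG BY d a c0 N) (w x1 : ℕ)
    (hR : ∀ e, 1 ≤ e → e ≤ w → (∀ i, 1 ≤ i → i < e → hh BG BY (qs BG - 1 + i) = 0) →
      hh BG BY (qs BG - 1 + e) * Phi e ((EE BY).coeff (qs BG - 1)) (hh BG BY (qs BG - 1)) = 0)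
    (hR' : ∀ e, 1 ≤ e → e + 1 ≤ w → (∀ i, 1 ≤ i → i < e → hh BG BG (qs BG + i) = 0) →
      hh BG BG (qs BG + e) * Phi e ((EE BG).coeff (qs BG)) (hh BG BG (qs BG)) = 0)
    (hx1 : qs BG < x1)
    (hmin : ∀ x, qs (BG.filter (fun β => ¬ β.2 < c0)) < x → x < x1 →
      hh BG (BG.filter (fun β => ¬ β.2 < c0)) x = 0)
    (hne : hh BG (BG.filter (fun β => ¬ β.2 < c0)) x1 ≠ 0) :
    qs BG + w < x1 + 1 := by
  classical
  by_contra hcon
  rw [not_lt] at hcon
  set big := BG.filter (fun β => ¬ β.2 < c0) with hbig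
  set sG := BG.filter (fun β => β.2 < c0) with hsG
  set sY := BY.filter (fun β => β.2 < c0) with hsY
  have htot := c.total
  rw [← hbig] at htot
  have hN1 := c.hN1
  rw [← hsY] at hN1
  have hNG := c.hN
  rw [← hsG] at hNG
  have hNpos := c.hNpos
  have hspY := c.split_Y
  rw [← hbig, ← hsY] at hspY
  have hspG := c.split_G
  rw [← hbig, ← hsG] at hspG
  have hbs : ∀ β ∈ big, N < 2 ^ β.2 := c.big_size'
  obtain ⟨e, he⟩ : ∃ e, x1 = qs BG + e + 1 - 1 ∧ 1 ≤ e := ⟨x1 - qs BG, by omega, by omega⟩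
  obtain ⟨he1, he2⟩ := he
  -- values at (r-1, r+1)
  have v1 : ∀ i, 1 ≤ i → i < e + 1 → hh BG BY (qs BG - 1 + i) = 0 := by
    intro i hi1 hi2
    apply conv_none BG BY sY big hspY
    intro y hy1 hy2
    apply hmin <;> omega
  have v2 : hh BG BY (qs BG - 1 + (e + 1)) = hh BG big x1 := by
    rw [conv_single BG BY sY big hspY (qs BG - 1 + (e + 1)) 0 (Nat.zero_le _), coeff_EE_zero,
      one_mul]
    · congr 1
      omega
    · intro y hy1 hy2 hy3
      apply hmin <;> omega
  have v3 : hh BG BY (qs BG - 1) = (EE sY).coeff (N - 1) * hh BG big (qs big) := by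
    rw [conv_single BG BY sY big hspY (qs BG - 1) (N - 1) (by omega)]
    · congr 2
      omega
    · intro y hy1 hy2 hy3
      apply hmin <;> omega
  have v4 : (EE BY).coeff (qs BG - 1) = (EE sY).coeff (N - 1) * (EE big).coeff (qs big) := by
    rw [hspY, coeff_mul_big (M := N) hbs (N - 1) (qs BG - 1) (by omega) (by omega)]
  -- values at (r, r)
  have u1 : ∀ i, 1 ≤ i → i < e → hh BG BG (qs BG + i) = 0 := by
    intro i hi1 hi2
    apply conv_none BG BG sG big hspG
    intro y hy1 hy2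
    apply hmin <;> omega
  have u2 : hh BG BG (qs BG + e) = hh BG big x1 := by
    rw [conv_single BG BG sG big hspG (qs BG + e) 0 (Nat.zero_le _), coeff_EE_zero, one_mul]
    · congr 1
      omega
    · intro y hy1 hy2 hy3
      apply hmin <;> omega
  have u3 : hh BG BG (qs BG) = (EE sG).coeff N * hh BG big (qs big) := by
    rw [conv_single BG BG sG big hspG (qs BG) N (by omega)]
    · congr 2
      omega
    · intro y hy1 hy2 hy3
      apply hmin <;> omega
  have u4 : (EE BG).coeff (qs BG) = (EE sG).coeff N * (EE big).coeff (qs big) := by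
    rw [hspG, coeff_mul_big (M := N) hbs N (qs BG) (by omega) (by omega)]
  have w1 := hR (e + 1) (by omega) (by omega) v1
  rw [v2, v3, v4, Phi_mul] at w1
  have w2 := hR' e he2 (by omega) u1
  obtain ⟨e', rfl⟩ : ∃ e', e = e' + 1 := ⟨e - 1, by omega⟩
  rw [u2, u3, u4, Phi_mul] at w2
  have unitA : IsUnit ((EE sY).coeff (N - 1)) := by
    have := c.A_unit (N - 1) (by omega)
    exact this
  have unitG : IsUnit ((EE sG).coeff N) := by
    rw [hNG]
    exact unit_top (fun β hβ => c.h0 β (Finset.filter_subset _ _ hβ))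
  have unitC : IsUnit ((EE big).coeff (qs big)) := unit_top c.big_ne
  have w3 : hh BG big x1 * Phi (e' + 1 + 1) ((EE big).coeff (qs big)) (hh BG big (qs big)) = 0 := by
    have h5 : (EE sY).coeff (N - 1) ^ (e' + 1) * (hh BG big x1
        * Phi (e' + 1 + 1) ((EE big).coeff (qs big)) (hh BG big (qs big))) = 0 := by
      rw [← w1]; ring
    exact (unitA.pow (e' + 1)).mul_right_eq_zero.1 h5
  have w4 : hh BG big x1 * Phi (e' + 1) ((EE big).coeff (qs big)) (hh BG big (qs big)) = 0 := by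
    have h5 : (EE sG).coeff N ^ e' * (hh BG big x1
        * Phi (e' + 1) ((EE big).coeff (qs big)) (hh BG big (qs big))) = 0 := by
      rw [← w2]; ring
    exact (unitG.pow e').mul_right_eq_zero.1 h5
  rw [Phi_succ, mul_add] at w3
  have w5 : hh BG big x1 * (EE big).coeff (qs big) ^ (e' + 1) = 0 := by
    have h6 : hh BG big x1 * (hh BG big (qs big)
        * Phi (e' + 1) ((EE big).coeff (qs big)) (hh BG big (qs big))) = 0 := by
      calc hh BG big x1 * (hh BG big (qs big)
          * Phi (e' + 1) ((EE big).coeff (qs big)) (hh BG big (qs big)))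
          = hh BG big (qs big) * (hh BG big x1
            * Phi (e' + 1) ((EE big).coeff (qs big)) (hh BG big (qs big))) := by ring
        _ = 0 := by rw [w4, mul_zero]
    rw [h6, add_zero] at w3
    exact w3
  exact hne ((unitC.pow (e' + 1)).mul_left_eq_zero.1 w5)

/-- Existence of the least `x1`. -/
lemma exists_x1 [CharP K 2] (c : Ctx BG BY d a c0 N) :
    ∃ x1, qs BG < x1 ∧ x1 ≤ qs BG + N ∧
      hh BG (BG.filter (fun β => ¬ β.2 < c0)) x1 ≠ 0 ∧
      ∀ x, qs (BG.filter (fun β => ¬ β.2 < c0)) < x → x < x1 →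
        hh BG (BG.filter (fun β => ¬ β.2 < c0)) x = 0 := by
  classical
  have htot := c.total
  have hNpos := c.hNpos
  have hex : ∃ x, qs (BG.filter (fun β => ¬ β.2 < c0)) < x ∧
      hh BG (BG.filter (fun β => ¬ β.2 < c0)) x ≠ 0 := ⟨_, by omega, c.y_far⟩
  obtain ⟨h1, h2⟩ := Nat.find_spec hex
  have h3 : Nat.find hex ≤ qs (BG.filter (fun β => ¬ β.2 < c0)) + 2 * N :=
    Nat.find_min' hex ⟨by omega, c.y_far⟩
  refine ⟨Nat.find hex, ?_, by omega, h2, ?_⟩
  · by_contra hcon
    rw [not_lt] at hcon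
    exact h2 (c.y_window _ h1 (by omega))
  · intro x hx1 hx2
    by_contra hcon
    exact Nat.find_min hex hx2 ⟨hx1, hcon⟩

/-- Case `w < N`. -/
lemma case_lt [CharP K 2] (c : Ctx BG BY d a c0 N) (w : ℕ) (hw : 1 ≤ w) (hwN : w < N)
    (hZ : hh BG BY w * (EE BY).coeff (qs BG - w) = 0) : False := by
  classical
  have htot := c.total
  have hN1 := c.hN1
  have hspY := c.split_Y
  set big := BG.filter (fun β => ¬ β.2 < c0) with hbig
  set sY := BY.filter (fun β => β.2 < c0) with hsY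
  have hbs : ∀ β ∈ big, N < 2 ^ β.2 := c.big_size'
  have v1 : hh BG BY w = (EE sY).coeff w := by
    rw [conv_single BG BY sY big hspY w w le_rfl, Nat.sub_self, c.y_zero, mul_one]
    intro y hy1 hy2 hy3
    exact c.y_small N hbs (fun x hx1 hx2 => c.phi_small x hx1 hx2) (w - y) (by omega) (by omega)
  have v2 : (EE BY).coeff (qs BG - w) = (EE sY).coeff (N - w) * (EE big).coeff (qs big) := by
    rw [hspY, coeff_mul_big (M := N) hbs (N - w) (qs BG - w) (by omega) (by omega)]
  rw [v1, v2] at hZ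
  have unit1 : IsUnit ((EE sY).coeff w) := c.A_unit w hwN
  have unit2 : IsUnit ((EE sY).coeff (N - w)) := c.A_unit (N - w) (by omega)
  have unitC : IsUnit ((EE big).coeff (qs big)) := unit_top c.big_ne
  exact (unit1.mul (unit2.mul unitC)).ne_zero hZ

/-- Case `w = N`. -/
lemma case_eq [CharP K 2] (c : Ctx BG BY d a c0 N) (hN2 : 2 ≤ N) (hNr : N + 1 ≤ qs BG)
    (x1 : ℕ) (hx1 : qs BG + N < x1 + 1)
    (hmin : ∀ x, qs (BG.filter (fun β => ¬ β.2 < c0)) < x → x < x1 →
      hh BG (BG.filter (fun β => ¬ β.2 < c0)) x = 0)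
    (hZ : (∀ n, N ≤ n → n < 2 * N → hh BG BY n = 0) →
      (∀ x, 1 ≤ x → x ≤ N → N + x ≤ qs BG → (EE BY).coeff (qs BG - N - x) = 0) →
      ∀ e, e * (EE BY).coeff (qs BG - 1) = 1 →
      hh BG BY (2 * N) * ∑ i ∈ range (N + 1),
        hh BG BY (N - 1) ^ i * (e * (EE BY).coeff (qs BG - N)) ^ (i + 1) = 0) : False := by
  classical
  have htot := c.total
  have hN1 := c.hN1
  have hspY := c.split_Y
  have hbn := c.big_ne
  have hNc := c.hNc
  have hyw := c.y_window
  have hyz := c.y_zero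
  have hysm := c.y_small
  have hpb := c.phi_big
  have hpv := c.phi_values
  have hgam := c.gam_ne
  have hbc := c.big_size
  have hbs : ∀ β ∈ BG.filter (fun β => ¬ β.2 < c0), N < 2 ^ β.2 := c.big_size'
  set big := BG.filter (fun β => ¬ β.2 < c0) with hbig
  set sY := BY.filter (fun β => β.2 < c0) with hsY
  -- the smallest big block
  have hbne : big.Nonempty := by
    rw [Finset.nonempty_iff_ne_empty]
    intro h
    rw [h, qs_empty] at htot
    omega
  obtain ⟨β0, hβ0, hβmin⟩ := Finset.exists_min_image big (fun β => β.2) hbne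
  set q0 := 2 ^ β0.2 with hq0
  have hbq : ∀ β ∈ big, q0 ≤ 2 ^ β.2 :=
    fun β hβ => Nat.pow_le_pow_right (by norm_num) (hβmin β hβ)
  have hNq : N < q0 := hbs β0 hβ0
  have hqsb : qs ({β0} : Finset (K × ℕ)) = q0 := by
    unfold qs
    rw [Finset.sum_singleton]
  -- q0 >= 2N
  have hq2N : 2 * N ≤ q0 := by
    by_contra hcon
    rw [not_le] at hcon
    have h1 := hpb (2 * N - q0) (by omega) (by omega) {β0} (Finset.singleton_subset_iff.2 hβ0)
    rw [hqsb] at h1
    have h2 : 2 * N - q0 + q0 = 2 * N := by omega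
    rw [h2] at h1
    exact c.phi_2N h1
  by_cases hdiv : 2 * N ∣ q0
  · -- N is a power of two
    have hNeven : Even N := by
      have h1 : 2 * N ∣ 2 ^ β0.2 := hdiv
      obtain ⟨k, _, hk2⟩ := (Nat.dvd_prime_pow Nat.prime_two).1 h1
      rcases k with _ | _ | k
      · simp at hk2
      · simp at hk2
        omega
      · refine ⟨2 ^ k, ?_⟩
        rw [pow_succ, pow_succ] at hk2
        omega
    have hbs2 : ∀ β ∈ big, 2 * N - 1 < 2 ^ β.2 := fun β hβ => by
      have := hbq β hβ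
      omega
    have hy0 : ∀ x, 1 ≤ x → x ≤ 2 * N - 1 → hh BG big x = 0 := by
      intro x hx1 hx2
      refine hysm (2 * N - 1) hbs2 ?_ x hx1 hx2
      intro z hz1 hz2
      rw [hpv q0 hNq hbq z (by omega), if_neg]
      intro hz3
      have := Nat.le_of_dvd (by omega) hz3
      omega
    have unitA : IsUnit ((EE sY).coeff (N - 1)) := c.A_unit (N - 1) (by omega)
    have unitC : IsUnit ((EE big).coeff (qs big)) := unit_top hbn
    have v4 : (EE BY).coeff (qs BG - 1) = (EE sY).coeff (N - 1) * (EE big).coeff (qs big) := by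
      rw [hspY, coeff_mul_big (M := N) hbs (N - 1) (qs BG - 1) (by omega) (by omega)]
    have v5 : (EE BY).coeff (qs BG - N) = (EE big).coeff (qs big) := by
      rw [hspY, coeff_mul_big (M := N) hbs 0 (qs BG - N) (by omega) (by omega), coeff_EE_zero,
        one_mul]
    have v6 : hh BG BY (N - 1) = (EE sY).coeff (N - 1) := by
      rw [conv_single BG BY sY big hspY (N - 1) (N - 1) le_rfl, Nat.sub_self, hyz, mul_one]
      intro y hy1 hy2 hy3
      exact hy0 (N - 1 - y) (by omega) (by omega)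
    have v7 : hh BG BY (2 * N) = hh BG big (2 * N) := by
      rw [conv_single BG BY sY big hspY (2 * N) 0 (Nat.zero_le _), coeff_EE_zero, one_mul,
        Nat.sub_zero]
      intro y hy1 hy2 hy3
      exact hy0 (2 * N - y) (by omega) (by omega)
    have hc1 : ∀ n, N ≤ n → n < 2 * N → hh BG BY n = 0 := by
      intro n hn1 hn2
      apply conv_none BG BY sY big hspY
      intro y hy1 hy2
      exact hy0 (n - y) (by omega) (by omega)
    have hc2 : ∀ x, 1 ≤ x → x ≤ N → N + x ≤ qs BG → (EE BY).coeff (qs BG - N - x) = 0 := by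
      intro x hx1 hx2 hx3
      rw [hspY, Polynomial.coeff_mul]
      apply Finset.sum_eq_zero
      rintro ⟨y, z⟩ hyz'
      rw [Finset.HasAntidiagonal.mem_antidiagonal] at hyz'
      simp only at hyz' ⊢
      by_cases h3 : y ≤ qs sY
      · rw [coeff_EE_near hbs2 (x + y) z (by omega) (by omega) (by omega), mul_zero]
      · rw [coeff_EE_gt sY y (by omega), zero_mul]
    obtain ⟨uA, huA⟩ := unitA
    obtain ⟨uC, huC⟩ := unitC
    have hZ' := hZ hc1 hc2 (↑(uA⁻¹) * ↑(uC⁻¹)) (by
      rw [v4, ← huA, ← huC]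
      calc (↑(uA⁻¹) * ↑(uC⁻¹) : QB K) * (↑uA * ↑uC)
          = (↑(uA⁻¹) * ↑uA) * (↑(uC⁻¹) * ↑uC) := by ring
        _ = 1 := by rw [Units.inv_mul, Units.inv_mul, mul_one])
    rw [v5, v6, v7, ← huA, ← huC] at hZ'
    have h8 : (↑(uA⁻¹) * ↑(uC⁻¹) : QB K) * ↑uC = ↑(uA⁻¹) := by
      rw [mul_assoc, Units.inv_mul, mul_one]
    rw [h8] at hZ'
    have h9 : ∀ i ∈ range (N + 1), (uA : QB K) ^ i * (↑(uA⁻¹) : QB K) ^ (i + 1)
        = (↑(uA⁻¹) : QB K) := by
      intro i _
      rw [pow_succ, ← mul_assoc, ← mul_pow, Units.mul_inv, one_pow, one_mul]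
    rw [Finset.sum_congr rfl h9, Finset.sum_const, Finset.card_range, nsmul_eq_mul] at hZ'
    have hchar : CharP (QB K) 2 := charP_of_injective_algebraMap (algebraMap K (QB K)).injective 2
    have h10 : ((N + 1 : ℕ) : QB K) = 1 := by
      obtain ⟨M, hM⟩ := hNeven
      rw [hM, Nat.cast_add, Nat.cast_add, CharTwo.add_self_eq_zero, zero_add, Nat.cast_one]
    rw [h10, one_mul] at hZ'
    have h11 : hh BG big (2 * N) = 0 := (uA⁻¹).isUnit.mul_left_eq_zero.1 hZ'
    rw [hh_zero_iff _ _ hbn] at h11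
    have h12 := h11 ∅ (Finset.empty_subset _) (by rw [qs_empty]; omega)
    rw [qs_empty, Nat.sub_zero] at h12
    exact c.phi_2N h12
  · -- a multiple of 2N in (q0, q0 + 2N)
    have h2Npos : 0 < 2 * N := by omega
    set j := q0 / (2 * N) + 1 with hj
    have h1 := Nat.div_add_mod q0 (2 * N)
    have h2 := Nat.mod_lt q0 h2Npos
    have h3 : q0 % (2 * N) ≠ 0 := fun h => hdiv (Nat.dvd_of_mod_eq_zero h)
    set n := 2 * N * j with hn
    have h4 : n = 2 * N * (q0 / (2 * N)) + 2 * N := by rw [hn, hj]; ring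
    have h5 : phi BG n ≠ 0 := by
      rw [hpv q0 hNq hbq n (by omega), if_pos (Dvd.intro j rfl)]
      exact pow_ne_zero _ hgam
    have hq : qs (big.erase β0) + q0 = qs big := by
      have := Finset.add_sum_erase big (fun β => 2 ^ β.2) hβ0
      unfold qs
      omega
    have h6 := hmin (n + qs (big.erase β0)) (by omega) (by omega)
    rw [hh_zero_iff _ _ hbn] at h6
    have h7 := h6 (big.erase β0) (Finset.erase_subset _ _) (by omega)
    rw [Nat.add_sub_cancel] at h7
    exact h5 h7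

end Ctx

end

/-- ALG. -/
theorem st_alg : ST_ALG := by
  intro K _ _ BG BY d a h0 hda hlow hBY r w hr hw hwr hR hR' hRI hZ1 hZ2
  have hr' : r = qs BG := hr.symm
  subst hr'
  have rl : Rl BG BY d a := ⟨hda, hlow, hBY⟩
  have h1 : hh BG BY (qs BG) = 0 := by
    have h2 := hR 1 le_rfl (by omega) (fun i hi1 hi2 => by omega)
    rw [Phi_one, mul_one] at h2
    have h3 : qs BG - 1 + 1 = qs BG := by omega
    rwa [h3] at h2
  obtain ⟨c0, N, c⟩ := exists_ctx rl h0 h1 hRI
  obtain ⟨x1, hx1, hx2, hx3, hx4⟩ := c.exists_x1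
  have h4 := c.ladder w x1 hR hR' hx1 hx4 hx3
  rcases lt_or_ge w N with h5 | h5
  · exact c.case_lt w (by omega) h5 hZ1
  · have h6 : w = N := by omega
    subst h6
    exact c.case_eq (by omega) hwr x1 h4 hx4 hZ2

end Pool.Agent.Helper58.SNE
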